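import Pool.Agent.H36.GD.E_CST

/-!
# In almost every direction there is no square integrable density
-/

set_option autoImplicit false

namespace Pool.Agent.H36.GD

open MeasureTheory Pool.Agent.H44.DU Set Filter Topology

variable {n : ℕ} (S : Surf n)

lemma zt_norm (τ : ℝ) (s : Side n) : ‖S.zt τ s‖ = 1 := by
  rw [Surf.zt, mul_comm, show (((τ : ℂ) * (Real.log (S.a s) : ℝ)) * Complex.I) =
    ((τ * Real.log (S.a s) : ℝ) : ℂ) * Complex.I by push_cast; ring, Complex.norm_exp_ofReal_mul_I]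

lemma zt_gl (τ : ℝ) (s : Side n) : S.zt τ (S.gl s) * S.zt τ s = 1 := by
  rw [Surf.zt, Surf.zt, ← Complex.exp_add, S.a_gl, Real.log_inv]
  push_cast
  rw [show Complex.I * (τ * -Real.log (S.a s)) + Complex.I * (τ * Real.log (S.a s)) = 0 by ring,
    Complex.exp_zero]

lemma xl_lt_xr (t : ℝ) (i : Fin n) : S.xl t i < S.xr t i := by
  have ho := S.orient i
  have l0 : S.xl t i ≤ xi t (S.v i 0) := min_le_left _ _
  have l1 : S.xl t i ≤ xi t (S.v i 1) := (min_le_right _ _).trans (min_le_left _ _)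
  have l2 : S.xl t i ≤ xi t (S.v i 2) := (min_le_right _ _).trans (min_le_right _ _)
  have r0 : xi t (S.v i 0) ≤ S.xr t i := le_max_left _ _
  have r1 : xi t (S.v i 1) ≤ S.xr t i := (le_max_left _ _).trans (le_max_right _ _)
  have r2 : xi t (S.v i 2) ≤ S.xr t i := (le_max_right _ _).trans (le_max_right _ _)
  by_contra hlt
  have h1 : xi t (S.v i 1 - S.v i 0) = 0 := by rw [xi_sub]; linarith
  have h2 : xi t (S.v i 2 - S.v i 0) = 0 := by rw [xi_sub]; linarith
  rw [xi] at h1 h2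
  have e1 : (S.v i 1 - S.v i 0).re = t * (S.v i 1 - S.v i 0).im := by linarith
  have e2 : (S.v i 2 - S.v i 0).re = t * (S.v i 2 - S.v i 0).im := by linarith
  rw [e1, e2] at ho
  linarith [mul_comm (S.v i 1 - S.v i 0).im (S.v i 2 - S.v i 0).im,
    mul_assoc t (S.v i 1 - S.v i 0).im (S.v i 2 - S.v i 0).im,
    mul_left_comm (S.v i 1 - S.v i 0).im t (S.v i 2 - S.v i 0).im]

lemma xl_le_side (t : ℝ) (i : Fin n) (k : Fin 3) : S.xl t i ≤ xi t (S.v i k) := by
  fin_cases k
  · exact min_le_left _ _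
  · exact (min_le_right _ _).trans (min_le_left _ _)
  · exact (min_le_right _ _).trans (min_le_right _ _)

lemma le_xr_side (t : ℝ) (i : Fin n) (k : Fin 3) : xi t (S.v i k) ≤ S.xr t i := by
  fin_cases k
  · exact le_max_left _ _
  · exact (le_max_left _ _).trans (le_max_right _ _)
  · exact (le_max_right _ _).trans (le_max_right _ _)

lemma tri_compact (i : Fin n) : IsCompact (S.tri i) :=
  (Set.finite_range (S.v i)).isCompact_convexHull ℝ

lemma measurable_uu (τ : ℝ) {f : Fin n → ℝ → ℝ} (hf : ∀ i, Measurable (f i)) (i : Fin n) :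
    Measurable (uu τ f i) := by
  unfold uu
  apply Measurable.ite
  · exact measurableSet_lt measurable_const (hf i)
  · have := hf i
    fun_prop
  · exact measurable_const

lemma norm_uu (τ : ℝ) (f : Fin n → ℝ → ℝ) (i : Fin n) (x : ℝ) : ‖uu τ f i x‖ ≤ 1 := by
  unfold uu
  split_ifs
  · rw [show -(Complex.I * ((τ : ℂ) * (Real.log (f i x) : ℝ))) =
      ((-(τ * Real.log (f i x)) : ℝ) : ℂ) * Complex.I by push_cast; ring,
      Complex.norm_exp_ofReal_mul_I]
  · simp

/-- The integrals over two squares agree. -/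
def Agr (τ t : ℝ) (i : Fin n) (z z' : ℂ) (ρ : ℝ) : Prop :=
  ∀ f, S.Gd t → S.LD t f → S.SInc t (S.pf t f) →
    ∫ w in sq z' ρ, uu τ f i (xi t w) = ∫ w in sq z ρ, uu τ f i (xi t w)

lemma agr_ae (hA : A_0) (hB : B_0) (hX : E_BOX) (τ : ℝ) (i : Fin n) (z z' : ℂ) (ρ : ℝ)
    (hρ : 0 < ρ) (hs : ∀ l ∈ Icc (0 : ℝ) 1, sq (z + l * (z' - z)) ρ ⊆ interior (S.tri i)) :
    ∀ᵐ t : ℝ, Agr S τ t i z z' ρ := by
  classical
  obtain ⟨b, hb, ⟨M, hM⟩, hbG⟩ := hX n S i z z' ρ hρ hs
  have h1 := hA n S (S.zt τ) (zt_norm S τ) (zt_gl S τ) (fun j => if j = i then b else 0)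
    (by
      intro j
      by_cases h : j = i
      · simp only [h, if_true]; exact hb
      · simp only [h, if_false]; exact measurable_zero)
    ⟨M, by
      intro j w
      by_cases h : j = i
      · simp only [h, if_true]; exact hM w
      · simp only [h, if_false, Pi.zero_apply, norm_zero]
        exact (norm_nonneg _).trans (hM 0)⟩ (z' - z)
  filter_upwards [h1] with t ht f hgd hf hinc
  obtain ⟨C, hC⟩ := ht
  have hsz : sq z ρ ⊆ S.tri i := by
    have := hs 0 (by simp)
    simp only [Complex.ofReal_zero, zero_mul, add_zero] at this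
    exact this.trans interior_subset
  have hsz' : sq z' ρ ⊆ S.tri i := by
    have := hs 1 (by simp)
    simp only [Complex.ofReal_one, one_mul, add_sub_cancel] at this
    exact this.trans interior_subset
  have hcpt := tri_compact S i
  have hum : Measurable (fun w => uu τ f i (xi t w)) :=
    (measurable_uu τ hf.meas i).comp (xi_continuous t).measurable
  have hui : IntegrableOn (fun w => uu τ f i (xi t w)) (S.tri i) volume := by
    apply Measure.integrableOn_of_bounded (M := 1) hcpt.measure_lt_top.ne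
      hum.aestronglyMeasurable
    exact Eventually.of_forall fun w => norm_uu _ _ _ _
  have main : ∀ ε > (0 : ℝ), ‖(∫ w in sq z' ρ, uu τ f i (xi t w)) -
      ∫ w in sq z ρ, uu τ f i (xi t w)‖ ≤ 2 * ε + √(|C| * ε) := by
    intro ε hε
    obtain ⟨T₀, hT₀⟩ := hB n S t τ f hgd hf hinc ε hε
    obtain ⟨N, hN⟩ := exists_nat_ge T₀
    obtain ⟨T, hT, hTG⟩ := hC N
    obtain ⟨G, hG, -, hq, hu⟩ := hT₀ T (hN.trans hT)
    have h2 := hTG G hG
    obtain ⟨K, hK⟩ := hG.lip
    have hGc : ContinuousOn (G i) (S.tri i) := (hK i).continuousOn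
    have hGi : IntegrableOn (G i) (S.tri i) volume := hGc.integrableOn_compact hcpt
    have h3 : ∑ j, ∫ w in S.tri j, (if j = i then b else 0) w * fderiv ℝ (G j) w (z' - z) =
        (∫ w in sq z' ρ, G i w) - ∫ w in sq z ρ, G i w := by
      rw [hbG K (G i) (hK i), Finset.sum_eq_single i]
      · simp only [if_true]
      · intro j _ hj
        simp only [hj, if_false, Pi.zero_apply, zero_mul, integral_zero]
      · intro h
        exact absurd (Finset.mem_univ i) h
    rw [h3] at h2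
    have h4 : ‖(∫ w in sq z' ρ, G i w) - ∫ w in sq z ρ, G i w‖ ≤ √(|C| * ε) := by
      apply Real.le_sqrt_of_sq_le
      refine h2.trans ?_
      have hqn : 0 ≤ S.qe t T G := by
        unfold Surf.qe Surf.en
        positivity
      calc C * S.qe t T G ≤ |C| * S.qe t T G := by gcongr; exact le_abs_self C
        _ ≤ |C| * ε := by gcongr
    have h5 : ∫ w in S.tri i, ‖G i w - uu τ f i (xi t w)‖ ≤ ε := by
      refine (Finset.single_le_sum (f := fun j => ∫ w in S.tri j, ‖G j w - uu τ f j (xi t w)‖)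
        (fun j _ => ?_) (Finset.mem_univ i)).trans hu
      exact integral_nonneg fun w => norm_nonneg _
    have h6 : ∀ c : ℂ, sq c ρ ⊆ S.tri i →
        ‖(∫ w in sq c ρ, uu τ f i (xi t w)) - ∫ w in sq c ρ, G i w‖ ≤ ε := by
      intro c hc
      rw [← integral_sub (hui.mono_set hc) (hGi.mono_set hc)]
      refine (norm_integral_le_integral_norm _).trans (le_trans ?_ h5)
      have h7 : ∀ w, ‖uu τ f i (xi t w) - G i w‖ = ‖G i w - uu τ f i (xi t w)‖ :=
        fun w => norm_sub_rev _ _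
      simp only [h7]
      apply setIntegral_mono_set
      · exact (hGi.sub hui).norm
      · exact Eventually.of_forall fun w => norm_nonneg _
      · exact Filter.Eventually.of_forall hc
    have h8 := h6 z hsz
    have h9 := h6 z' hsz'
    calc ‖(∫ w in sq z' ρ, uu τ f i (xi t w)) - ∫ w in sq z ρ, uu τ f i (xi t w)‖
        = ‖((∫ w in sq z' ρ, uu τ f i (xi t w)) - ∫ w in sq z' ρ, G i w) +
          ((∫ w in sq z' ρ, G i w) - ∫ w in sq z ρ, G i w) -
          ((∫ w in sq z ρ, uu τ f i (xi t w)) - ∫ w in sq z ρ, G i w)‖ := by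
          congr 1; ring
      _ ≤ ‖(∫ w in sq z' ρ, uu τ f i (xi t w)) - ∫ w in sq z' ρ, G i w‖ +
          ‖(∫ w in sq z' ρ, G i w) - ∫ w in sq z ρ, G i w‖ +
          ‖(∫ w in sq z ρ, uu τ f i (xi t w)) - ∫ w in sq z ρ, G i w‖ := by
          refine (norm_sub_le _ _).trans ?_
          gcongr
          exact norm_add_le _ _
      _ ≤ ε + √(|C| * ε) + ε := by gcongr
      _ = 2 * ε + √(|C| * ε) := by ring
  have hlim : Tendsto (fun ε : ℝ => 2 * ε + √(|C| * ε)) (𝓝[>] 0) (𝓝 0) := by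
    have hc : Continuous (fun ε : ℝ => 2 * ε + √(|C| * ε)) := by fun_prop
    have := hc.tendsto 0
    simp only [mul_zero, Real.sqrt_zero, add_zero] at this
    exact this.mono_left nhdsWithin_le_nhds
  have h10 := ge_of_tendsto hlim (eventually_nhdsWithin_of_forall main)
  exact sub_eq_zero.1 (norm_le_zero_iff.1 h10)

lemma mv_ae (t : ℝ) (r : Side n) {p : ℝ → Prop} (h : ∀ᵐ x : ℝ, p x) :
    ∀ᵐ x : ℝ, p (S.mv t r x) := by
  have h1 := (measurePreserving_add_right (volume : Measure ℝ)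
    (xi t (S.b r))).quasiMeasurePreserving.ae h
  exact (Measure.quasiMeasurePreserving_smul (volume : Measure ℝ) (S.a_pos r).ne').ae h1

theorem pf_E_0 (hA : A_0) (hB : B_0) (hC : E_CYC) (hX : E_BOX) (hK : E_CST) : E_0 := by
  intro n S hcon htr hn
  obtain ⟨τ, hτ⟩ := hC n S hcon htr
  have h1 : ∀ᵐ t : ℝ, ∀ q : Fin n × ℚ × ℚ × ℚ × ℚ × ℚ, 0 < q.2.2.2.2.2 →
      (∀ l ∈ Set.Icc (0 : ℝ) 1, sq (((q.2.1 : ℂ) + q.2.2.1 * Complex.I) +
        l * (((q.2.2.2.1 : ℂ) + q.2.2.2.2.1 * Complex.I) -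
          ((q.2.1 : ℂ) + q.2.2.1 * Complex.I))) q.2.2.2.2.2 ⊆ interior (S.tri q.1)) →
      Agr S τ t q.1 ((q.2.1 : ℂ) + q.2.2.1 * Complex.I)
        ((q.2.2.2.1 : ℂ) + q.2.2.2.2.1 * Complex.I) q.2.2.2.2.2 := by
    rw [ae_all_iff]
    intro q
    by_cases hq : 0 < q.2.2.2.2.2 ∧ (∀ l ∈ Set.Icc (0 : ℝ) 1,
        sq (((q.2.1 : ℂ) + q.2.2.1 * Complex.I) +
        l * (((q.2.2.2.1 : ℂ) + q.2.2.2.2.1 * Complex.I) -
          ((q.2.1 : ℂ) + q.2.2.1 * Complex.I))) q.2.2.2.2.2 ⊆ interior (S.tri q.1))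
    · filter_upwards [agr_ae S hA hB hX τ q.1 _ _ _ (by exact_mod_cast hq.1) hq.2] with t ht _ _
      exact ht
    · exact Eventually.of_forall fun t ha hb => absurd ⟨ha, hb⟩ hq
  filter_upwards [h1] with t ht hgd f hf hinc
  have h2 : ∀ i : Fin n, ∃ k : ℂ, ∀ᵐ x : ℝ, S.xl t i < x → x < S.xr t i → uu τ f i x = k := by
    intro i
    apply hK n S t i (uu τ f i) (measurable_uu τ hf.meas i) (norm_uu τ f i)
    intro a b c d e he hs
    exact ht (i, a, b, c, d, e) he hs f hgd hf hinc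
  choose k hk using h2
  have hk0 : ∀ i, k i ≠ 0 := by
    intro i hki
    have h3 := hinc i (S.xl t i) (S.xr t i) le_rfl (xl_lt_xr S t i) le_rfl
    have h4 : ∀ x, S.pf t f i x = 0 := by
      intro x
      unfold Surf.pf
      apply setIntegral_eq_zero_of_ae_eq_zero
      filter_upwards [hk i] with y hy hy2
      have h5 := hy hy2.1.1 hy2.1.2
      rw [hki] at h5
      unfold uu at h5
      split_ifs at h5 with h6
      · exact absurd h5 (Complex.exp_ne_zero _)
      · exact le_antisymm (not_lt.1 h6) (hf.nonneg i y)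
    rw [h4, h4] at h3
    exact lt_irrefl _ h3
  have hright : ∀ s : Side n, xi t (S.Q s) < xi t (S.P s) →
      k (S.gl s).1 = S.zt τ s * k s.1 := by
    intro s hs
    have h3 : ∀ᵐ x : ℝ, S.InJ t s x → k (S.gl s).1 = S.zt τ s * k s.1 := by
      filter_upwards [hk s.1, mv_ae S t s (hk (S.gl s).1), hf.glue s] with x hx1 hx2 hx3 hx
      have hx4 := hx3 hx
      have hI := (S.inI_gl_iff t s x).2 hx
      have e1 := hx1 ((xl_le_side S t s.1 (s.2 + 1)).trans_lt hx.1)
        (hx.2.trans_le (le_xr_side S t s.1 s.2))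
      have e2 := hx2 ((xl_le_side S t (S.gl s).1 (S.gl s).2).trans_lt hI.1)
        (hI.2.trans_le (le_xr_side S t (S.gl s).1 ((S.gl s).2 + 1)))
      have hpos : 0 < f s.1 x := by
        by_contra hneg
        apply hk0 s.1
        rw [← e1]
        unfold uu
        rw [if_neg hneg]
      have ha := S.a_pos s
      rw [← e1, ← e2]
      unfold uu
      rw [if_pos hpos, hx4, if_pos (div_pos hpos ha), Real.log_div hpos.ne' ha.ne', Surf.zt,
        ← Complex.exp_add]
      congr 1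
      push_cast
      ring
    obtain ⟨x, hx1, hx2⟩ := (Measure.dense_of_ae h3).inter_open_nonempty
      (Ioo (xi t (S.Q s)) (xi t (S.P s))) isOpen_Ioo (nonempty_Ioo.2 hs)
    exact hx2 hx1
  refine hτ k hk0 fun s => ?_
  rcases lt_trichotomy (xi t (S.Q s)) (xi t (S.P s)) with h | h | h
  · exact hright s h
  · exfalso
    have e1 : S.dev [] s = S.P s := by
      simp [Surf.dev, Surf.A, Surf.B]
    have e2 : S.dev [] (nx s) = S.Q s := by
      simp [Surf.dev, Surf.A, Surf.B, Surf.P_nx]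
    have h3 := hgd [] [] s (nx s) (by rw [e1, e2, h])
    rw [e1, e2] at h3
    apply S.P_ne_Q s
    apply Complex.ext _ h3
    rw [xi, xi, h3] at h
    linarith
  · have h4 : xi t (S.Q (S.gl s)) < xi t (S.P (S.gl s)) := by
      rw [S.xi_Q_gl, S.xi_P_gl, S.mv_lt_iff]
      exact h
    have h5 := hright (S.gl s) h4
    rw [S.gl_gl] at h5
    rw [h5, ← mul_assoc, mul_comm (S.zt τ s), zt_gl, one_mul]

end Pool.Agent.H36.GD
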