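import Pool.Agent.H44.GT.Targets

/-!
# The difference of the integrals of a Lipschitz function over two squares
-/

set_option autoImplicit false

namespace Pool.Agent.H36.GD

open MeasureTheory Pool.Agent.H44.DU Set

/-- The fundamental theorem of calculus for Lipschitz functions with complex values. -/
lemma ftc_lip {h : ℝ → ℂ} {C : NNReal} (hh : LipschitzWith C h) :
    ∫ l in (0 : ℝ)..1, deriv h l = h 1 - h 0 := by
  have hint : IntervalIntegrable (deriv h) volume 0 1 := by
    rw [intervalIntegrable_iff_integrableOn_Ioc_of_le zero_le_one]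
    apply Measure.integrableOn_of_bounded (M := C) (by simp)
    · exact (measurable_deriv h).aestronglyMeasurable
    · exact Filter.Eventually.of_forall fun x => norm_deriv_le_of_lipschitz hh
  have key : ∀ (L : ℂ →L[ℝ] ℝ), L (∫ l in (0 : ℝ)..1, deriv h l) = L (h 1) - L (h 0) := by
    intro L
    rw [← L.intervalIntegral_comp_comm hint]
    have h3 : AbsolutelyContinuousOnInterval (fun l => L (h l)) 0 1 :=
      LipschitzOnWith.absolutelyContinuousOnInterval (L.lipschitz.comp hh).lipschitzOnWith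
    rw [← h3.integral_deriv_eq_sub]
    apply intervalIntegral.integral_congr_ae
    filter_upwards [hh.ae_differentiableAt] with x hx _
    exact (L.hasFDerivAt.comp_hasDerivAt x hx.hasDerivAt).deriv.symm
  apply Complex.ext
  · simpa using key Complex.reCLM
  · simpa using key Complex.imCLM

lemma mem_sq {w c : ℂ} {ρ : ℝ} : w ∈ sq c ρ ↔ |w.re - c.re| ≤ ρ ∧ |w.im - c.im| ≤ ρ := Iff.rfl

lemma mem_sq_add (c v : ℂ) (ρ : ℝ) : c + v ∈ sq c ρ ↔ v ∈ sq 0 ρ := by
  simp [mem_sq]

lemma measurableSet_sq (c : ℂ) (ρ : ℝ) : MeasurableSet (sq c ρ) := by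
  apply IsClosed.measurableSet
  have h1 : IsClosed {w : ℂ | |w.re - c.re| ≤ ρ} := isClosed_le (by fun_prop) (by fun_prop)
  have h2 : IsClosed {w : ℂ | |w.im - c.im| ≤ ρ} := isClosed_le (by fun_prop) (by fun_prop)
  exact h1.inter h2

lemma isCompact_sq (c : ℂ) (ρ : ℝ) : IsCompact (sq c ρ) := by
  have h : sq c ρ = Icc (c.re - ρ) (c.re + ρ) ×ℂ Icc (c.im - ρ) (c.im + ρ) := by
    ext w
    simp only [mem_sq, Complex.mem_reProdIm, mem_Icc, abs_le]
    constructor
    · rintro ⟨⟨h1, h2⟩, h3, h4⟩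
      exact ⟨⟨by linarith, by linarith⟩, by linarith, by linarith⟩
    · rintro ⟨⟨h1, h2⟩, h3, h4⟩
      exact ⟨⟨by linarith, by linarith⟩, by linarith, by linarith⟩
  rw [h]
  exact isCompact_Icc.reProdIm isCompact_Icc

/-- Translation of the integral over a square. -/
lemma setIntegral_sq (c : ℂ) (ρ : ℝ) (g : ℂ → ℂ) :
    ∫ w in sq c ρ, g w = ∫ w in sq 0 ρ, g (c + w) := by
  rw [← integral_indicator (measurableSet_sq c ρ), ← integral_indicator (measurableSet_sq 0 ρ),
    ← integral_add_left_eq_self _ c]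
  congr 1
  ext w
  by_cases hw : w ∈ sq 0 ρ
  · rw [indicator_of_mem hw, indicator_of_mem ((mem_sq_add c w ρ).2 hw)]
  · rw [indicator_of_notMem hw, indicator_of_notMem (fun h => hw ((mem_sq_add c w ρ).1 h))]

/-- The kernel. -/
noncomputable def bk (z e : ℂ) (ρ : ℝ) (v : ℂ) : ℂ :=
  ∫ l in Ioc (0 : ℝ) 1, (sq 0 ρ).indicator (fun _ => (1 : ℂ)) (v - (z + l * e))

lemma mem_sq_iff (c v : ℂ) (ρ : ℝ) : v - c ∈ sq 0 ρ ↔ v ∈ sq c ρ := by
  simp [mem_sq]

lemma measurable_ind (z e : ℂ) (ρ : ℝ) : Measurable (fun p : ℂ × ℝ =>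
    (sq 0 ρ).indicator (fun _ => (1 : ℂ)) (p.1 - (z + p.2 * e))) := by
  apply (measurable_const.indicator (measurableSet_sq 0 ρ)).comp
  fun_prop

lemma measurable_bk (z e : ℂ) (ρ : ℝ) : Measurable (bk z e ρ) :=
  ((measurable_ind z e ρ).stronglyMeasurable.integral_prod_right').measurable

lemma norm_ind (z : ℂ) (ρ : ℝ) : ‖(sq 0 ρ).indicator (fun _ => (1 : ℂ)) z‖ ≤ 1 := by
  by_cases hw : z ∈ sq 0 ρ
  · rw [indicator_of_mem hw]; simp
  · rw [indicator_of_notMem hw]; simp

lemma norm_bk (z e : ℂ) (ρ : ℝ) (v : ℂ) : ‖bk z e ρ v‖ ≤ 1 := by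
  have := norm_setIntegral_le_of_norm_le_const (μ := volume) (s := Ioc (0 : ℝ) 1) (C := 1)
    (f := fun l : ℝ => (sq 0 ρ).indicator (fun _ => (1 : ℂ)) (v - (z + l * e)))
    (by simp) (fun l _ => norm_ind _ ρ)
  simpa [bk] using this

lemma bk_zero (z e : ℂ) (ρ : ℝ) (v : ℂ)
    (h : ∀ l ∈ Icc (0 : ℝ) 1, v ∉ sq (z + l * e) ρ) : bk z e ρ v = 0 := by
  rw [bk]
  apply setIntegral_eq_zero_of_forall_eq_zero
  intro l hl
  apply indicator_of_notMem
  rw [mem_sq_iff]
  exact h l ⟨hl.1.le, hl.2⟩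

/-- The formula for a Lipschitz function on the plane. -/
lemma box_lip {g : ℂ → ℂ} {C : NNReal} (hg : LipschitzWith C g) (z e : ℂ) (ρ : ℝ) (A : Set ℂ)
    (hA : MeasurableSet A) (hAf : volume A < ⊤)
    (hs : ∀ l ∈ Icc (0 : ℝ) 1, sq (z + l * e) ρ ⊆ A) :
    (∫ w in sq (z + e) ρ, g w) - ∫ w in sq z ρ, g w =
      ∫ v in A, bk z e ρ v * lineDeriv ℝ g v e := by
  have hD : Measurable (fun v => lineDeriv ℝ g v e) := measurable_lineDeriv hg.continuous
  have hDb : ∀ v, ‖lineDeriv ℝ g v e‖ ≤ C * ‖e‖ := fun v => norm_lineDeriv_le_of_lipschitz ℝ hg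
  have hcpt : volume (sq 0 ρ) < ⊤ := (isCompact_sq 0 ρ).measure_lt_top
  have hci : ∀ c : ℂ, IntegrableOn (fun w => g (c + w)) (sq 0 ρ) volume := by
    intro c
    apply ContinuousOn.integrableOn_compact (isCompact_sq 0 ρ)
    apply Continuous.continuousOn
    have := hg.continuous
    fun_prop
  rw [setIntegral_sq, setIntegral_sq z, ← integral_sub (hci _) (hci _)]
  have h1 : ∀ w, g (z + e + w) - g (z + w) =
      ∫ l in Ioc (0 : ℝ) 1, lineDeriv ℝ g (z + l * e + w) e := by
    intro w
    have h2 : LipschitzWith (C * ‖e‖₊) (fun l : ℝ => g (z + l * e + w)) := by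
      apply hg.comp
      apply LipschitzWith.of_dist_le_mul
      intro x y
      rw [dist_eq_norm, dist_eq_norm]
      have : z + (x : ℂ) * e + w - (z + (y : ℂ) * e + w) = ((x - y : ℝ) : ℂ) * e := by
        push_cast; ring
      rw [this, norm_mul, Complex.norm_real, coe_nnnorm, mul_comm]
    have h3 := ftc_lip h2
    simp only [Complex.ofReal_one, one_mul, Complex.ofReal_zero, zero_mul, add_zero] at h3
    rw [← h3, intervalIntegral.integral_of_le zero_le_one]
    apply setIntegral_congr_fun measurableSet_Ioc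
    intro l _
    simp only [lineDeriv]
    have h4 := deriv_comp_const_add (f := fun l : ℝ => g (z + l * e + w)) (a := l) (x := (0 : ℝ))
    rw [add_zero] at h4
    rw [← h4]
    congr 1
    ext s
    congr 1
    simp only [Complex.real_smul]
    push_cast
    ring
  simp only [h1]
  rw [integral_integral_swap]
  swap
  · have : IsFiniteMeasure (volume.restrict (sq 0 ρ)) := ⟨by rwa [Measure.restrict_apply_univ]⟩
    apply Integrable.of_bound (C := C * ‖e‖)
    · apply Measurable.aestronglyMeasurable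
      exact hD.comp (by fun_prop)
    · exact Filter.Eventually.of_forall fun p => hDb _
  have h5 : ∀ l ∈ Ioc (0 : ℝ) 1, ∫ w in sq 0 ρ, lineDeriv ℝ g (z + l * e + w) e =
      ∫ v in A, (sq 0 ρ).indicator (fun _ => (1 : ℂ)) (v - (z + l * e)) * lineDeriv ℝ g v e := by
    intro l hl
    rw [← setIntegral_sq (z + l * e) ρ (fun v => lineDeriv ℝ g v e)]
    have h6 : ∀ v, (sq 0 ρ).indicator (fun _ => (1 : ℂ)) (v - (z + l * e)) * lineDeriv ℝ g v e =
        (sq (z + l * e) ρ).indicator (fun v => lineDeriv ℝ g v e) v := by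
      intro v
      by_cases hw : v ∈ sq (z + l * e) ρ
      · rw [indicator_of_mem hw, indicator_of_mem ((mem_sq_iff _ v ρ).2 hw), one_mul]
      · rw [indicator_of_notMem hw, indicator_of_notMem (fun h => hw ((mem_sq_iff _ v ρ).1 h)),
          zero_mul]
    simp only [h6]
    rw [setIntegral_indicator (measurableSet_sq _ _),
      inter_eq_self_of_subset_right (hs l ⟨hl.1.le, hl.2⟩)]
  rw [setIntegral_congr_fun measurableSet_Ioc h5, integral_integral_swap]
  · apply setIntegral_congr_fun hA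
    intro v _
    simp only [bk]
    rw [integral_mul_const]
  · have : IsFiniteMeasure (volume.restrict A) := ⟨by rwa [Measure.restrict_apply_univ]⟩
    apply Integrable.of_bound (C := 1 * (C * ‖e‖))
    · apply Measurable.aestronglyMeasurable
      apply Measurable.mul
      · exact (measurable_ind z e ρ).comp measurable_swap
      · exact hD.comp measurable_snd
    · refine Filter.Eventually.of_forall fun p => ?_
      rw [Function.uncurry, norm_mul]
      exact mul_le_mul (norm_ind _ ρ) (hDb _) (norm_nonneg _) zero_le_one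

theorem pf_E_BOX : E_BOX := by
  intro n S i z z' ρ _ hs
  refine ⟨bk z (z' - z) ρ, measurable_bk _ _ _, ⟨1, norm_bk _ _ _⟩, ?_⟩
  intro K G hG
  obtain ⟨g, hg, hGg⟩ := hG.extend_finite_dimension
  have hcpt : IsCompact (S.tri i) := (Set.finite_range (S.v i)).isCompact_convexHull ℝ
  have hA : MeasurableSet (interior (S.tri i)) := isOpen_interior.measurableSet
  have hAf : volume (interior (S.tri i)) < ⊤ :=
    (measure_mono interior_subset).trans_lt hcpt.measure_lt_top
  have h1 := box_lip hg z (z' - z) ρ _ hA hAf hs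
  rw [add_sub_cancel] at h1
  have h2 : ∀ l ∈ Icc (0 : ℝ) 1, ∫ w in sq (z + l * (z' - z)) ρ, G w =
      ∫ w in sq (z + l * (z' - z)) ρ, g w := by
    intro l hl
    apply setIntegral_congr_fun (measurableSet_sq _ _)
    intro w hw
    exact hGg (interior_subset (hs l hl hw))
  have h3 := h2 0 (by simp)
  have h4 := h2 1 (by simp)
  simp only [Complex.ofReal_zero, zero_mul, add_zero, Complex.ofReal_one, one_mul,
    add_sub_cancel] at h3 h4
  rw [h3, h4, h1]
  have h5 : ∫ w in S.tri i, bk z (z' - z) ρ w * fderiv ℝ G w (z' - z) =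
      ∫ w in interior (S.tri i), bk z (z' - z) ρ w * fderiv ℝ G w (z' - z) := by
    apply setIntegral_eq_of_subset_of_forall_sdiff_eq_zero hcpt.measurableSet interior_subset
    intro v hv
    rw [bk_zero z (z' - z) ρ v (fun l hl h => hv.2 (hs l hl h)), zero_mul]
  rw [h5]
  apply setIntegral_congr_ae hA
  filter_upwards [hg.ae_differentiableAt] with v hv hvA
  rw [hv.lineDeriv_eq_fderiv]
  have h6 : G =ᶠ[nhds v] g := by
    filter_upwards [isOpen_interior.mem_nhds hvA] with w hw
    exact hGg (interior_subset hw)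
  rw [h6.fderiv_eq]

end Pool.Agent.H36.GD
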