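import Pool.Agent.H36.GD.E_BOX

/-!
# A function of the leaf whose integrals over squares only depend on the size is constant
-/

set_option autoImplicit false

namespace Pool.Agent.H36.GD

open MeasureTheory Pool.Agent.H44.DU Set Filter Topology

section geometry

variable {n : ℕ} (S : Surf n)

/-- A barycentric coordinate, times twice the area. -/
noncomputable def bc (p q z : ℂ) : ℝ := (q - p).re * (z - p).im - (q - p).im * (z - p).re

lemma mem_tri (i : Fin n) {z : ℂ} (h0 : 0 < bc (S.v i 1) (S.v i 2) z)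
    (h1 : 0 < bc (S.v i 2) (S.v i 0) z) (h2 : 0 < bc (S.v i 0) (S.v i 1) z) : z ∈ S.tri i := by
  have ho := S.orient i
  simp only [Complex.sub_re, Complex.sub_im] at ho
  simp only [bc, Complex.sub_re, Complex.sub_im] at h0 h1 h2
  obtain ⟨D, hD⟩ : ∃ D : ℝ, D = ((S.v i 1).re - (S.v i 0).re) * ((S.v i 2).im - (S.v i 0).im) -
    ((S.v i 1).im - (S.v i 0).im) * ((S.v i 2).re - (S.v i 0).re) := ⟨_, rfl⟩
  rw [← hD] at ho
  refine mem_convexHull_of_exists_fintype (ι := Fin 3)
    ![bc (S.v i 1) (S.v i 2) z / D, bc (S.v i 2) (S.v i 0) z / D, bc (S.v i 0) (S.v i 1) z / D]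
    (S.v i) ?_ ?_ (fun k => mem_range_self k) ?_
  · intro k
    fin_cases k
    · simp only [bc, Complex.sub_re, Complex.sub_im]; exact (div_pos h0 ho).le
    · simp only [bc, Complex.sub_re, Complex.sub_im]; exact (div_pos h1 ho).le
    · simp only [bc, Complex.sub_re, Complex.sub_im]; exact (div_pos h2 ho).le
  · simp only [Fin.sum_univ_three, Matrix.cons_val_zero, Matrix.cons_val_one, Matrix.cons_val]
    rw [← add_div, ← add_div, div_eq_one_iff_eq ho.ne', hD]
    simp only [bc, Complex.sub_re, Complex.sub_im]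
    ring
  · simp only [Fin.sum_univ_three, Matrix.cons_val_zero, Matrix.cons_val_one, Matrix.cons_val]
    apply Complex.ext
    · simp only [Complex.add_re, Complex.smul_re, smul_eq_mul]
      field_simp
      rw [hD]
      simp only [bc, Complex.sub_re, Complex.sub_im]
      ring
    · simp only [Complex.add_im, Complex.smul_im, smul_eq_mul]
      field_simp
      rw [hD]
      simp only [bc, Complex.sub_re, Complex.sub_im]
      ring

lemma tri_interior (i : Fin n) : (interior (S.tri i)).Nonempty := by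
  have ho := S.orient i
  refine ⟨(S.v i 0 + S.v i 1 + S.v i 2) / 3, ?_⟩
  rw [mem_interior]
  refine ⟨{z | 0 < bc (S.v i 1) (S.v i 2) z} ∩ {z | 0 < bc (S.v i 2) (S.v i 0) z} ∩
    {z | 0 < bc (S.v i 0) (S.v i 1) z}, ?_, ?_, ?_⟩
  · rintro z ⟨⟨h0, h1⟩, h2⟩
    exact mem_tri S i h0 h1 h2
  · have : ∀ p q, IsOpen {z | 0 < bc p q z} := by
      intro p q
      apply isOpen_lt continuous_const
      unfold bc
      simp only [Complex.sub_re, Complex.sub_im]
      fun_prop
    exact ((this _ _).inter (this _ _)).inter (this _ _)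
  · have e1 : ((S.v i 0 + S.v i 1 + S.v i 2) / 3).re =
        ((S.v i 0).re + (S.v i 1).re + (S.v i 2).re) / 3 := by
      simp
    have e2 : ((S.v i 0 + S.v i 1 + S.v i 2) / 3).im =
        ((S.v i 0).im + (S.v i 1).im + (S.v i 2).im) / 3 := by
      simp
    simp only [Complex.sub_re, Complex.sub_im] at ho
    refine ⟨⟨?_, ?_⟩, ?_⟩ <;>
    · change 0 < bc _ _ _
      simp only [bc, Complex.sub_re, Complex.sub_im, e1, e2]
      nlinarith [ho]

lemma xi_continuous (t : ℝ) : Continuous (xi t) := by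
  unfold xi
  fun_prop

lemma exists_interior_xi (t : ℝ) (i : Fin n) {x : ℝ} (h1 : S.xl t i < x) (h2 : x < S.xr t i) :
    ∃ z ∈ interior (S.tri i), xi t z = x := by
  have hc : Convex ℝ (S.tri i) := convex_convexHull ℝ _
  have hcl : closure (interior (S.tri i)) = closure (S.tri i) :=
    hc.closure_interior_eq_closure_of_nonempty_interior (tri_interior S i)
  have hv : ∀ k, S.v i k ∈ closure (interior (S.tri i)) := by
    intro k
    rw [hcl]
    exact subset_closure (subset_convexHull ℝ _ (mem_range_self k))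
  have hl : ∃ k, xi t (S.v i k) < x := by
    unfold Surf.xl at h1
    rcases min_lt_iff.1 h1 with h | h
    · exact ⟨0, h⟩
    · rcases min_lt_iff.1 h with h | h
      · exact ⟨1, h⟩
      · exact ⟨2, h⟩
  have hr : ∃ k, x < xi t (S.v i k) := by
    unfold Surf.xr at h2
    rcases lt_max_iff.1 h2 with h | h
    · exact ⟨0, h⟩
    · rcases lt_max_iff.1 h with h | h
      · exact ⟨1, h⟩
      · exact ⟨2, h⟩
  obtain ⟨k, hk⟩ := hl
  obtain ⟨m, hm⟩ := hr
  obtain ⟨z1, h3, h4⟩ := mem_closure_iff.1 (hv k) {z | xi t z < x}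
    (isOpen_lt (xi_continuous t) continuous_const) hk
  obtain ⟨z2, h5, h6⟩ := mem_closure_iff.1 (hv m) {z | x < xi t z}
    (isOpen_lt continuous_const (xi_continuous t)) hm
  have h7 := hc.interior.isPreconnected.intermediate_value h4 h6
    (xi_continuous t).continuousOn ⟨le_of_lt h3, le_of_lt h5⟩
  exact h7

end geometry

lemma sq_eq_preimage (c : ℂ) (ρ : ℝ) :
    sq c ρ = Complex.measurableEquivRealProd ⁻¹' Metric.closedBall (c.re, c.im) ρ := by
  ext w
  rw [mem_sq, mem_preimage, Metric.mem_closedBall, Prod.dist_eq, max_le_iff]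
  simp only [Complex.measurableEquivRealProd_apply, Real.dist_eq]

lemma setIntegral_sq_prod (c : ℂ) (ρ t : ℝ) (u : ℝ → ℂ) :
    ∫ w in sq c ρ, u (xi t w) = ∫ p in Metric.closedBall (c.re, c.im) ρ, u (p.1 - t * p.2) := by
  have := Complex.volume_preserving_equiv_real_prod.setIntegral_preimage_emb
    Complex.measurableEquivRealProd.measurableEmbedding (fun p : ℝ × ℝ => u (p.1 - t * p.2))
    (Metric.closedBall (c.re, c.im) ρ)
  rw [← this, ← sq_eq_preimage]
  rfl

theorem pf_E_CST : E_CST := by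
  intro n S t i u hu hb h
  set V : ℝ × ℝ → ℂ := fun p => u (p.1 - t * p.2) with hV
  have hVm : Measurable V := hu.comp (by fun_prop)
  have hVl : LocallyIntegrable V volume := by
    have : MemLp V ⊤ volume := memLp_top_of_bound hVm.aestronglyMeasurable 1
      (Eventually.of_forall fun p => hb _)
    exact this.locallyIntegrable le_top
  have hae := IsUnifLocDoublingMeasure.ae_tendsto_average volume hVl 1
  set A : Set ℂ := interior (S.tri i) with hA
  have hAo : IsOpen A := isOpen_interior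
  have hAc : Convex ℝ A := (convex_convexHull ℝ _).interior
  -- the points of differentiability
  set R : ℝ × ℝ → Prop := fun x => ∀ {ι : Type} {l : Filter ι} (w : ι → ℝ × ℝ) (δ : ι → ℝ)
    (_ : Tendsto δ l (𝓝[>] 0)) (_ : ∀ᶠ j in l, x ∈ Metric.closedBall (w j) (1 * δ j)),
    Tendsto (fun j => ⨍ y in Metric.closedBall (w j) (δ j), V y ∂volume) l (𝓝 (V x)) with hR
  have key : ∀ z z' : ℂ, z ∈ A → z' ∈ A → R (z.re, z.im) → R (z'.re, z'.im) →
      V (z.re, z.im) = V (z'.re, z'.im) := by
    intro z z' hz hz' hRz hRz'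
    have hδ : ∀ j : ℕ, (0 : ℝ) < ((1 / ((j : ℚ) + 1) : ℚ) : ℝ) := by
      intro j
      have : (0 : ℚ) < 1 / ((j : ℚ) + 1) := by positivity
      exact_mod_cast this
    have hδt : Tendsto (fun j : ℕ => ((1 / ((j : ℚ) + 1) : ℚ) : ℝ)) atTop (𝓝[>] 0) := by
      apply tendsto_nhdsWithin_of_tendsto_nhds_of_eventually_within
      · have := tendsto_one_div_add_atTop_nhds_zero_nat (𝕜 := ℝ)
        refine this.congr fun j => ?_
        push_cast
        rfl
      · exact Eventually.of_forall fun j => hδ j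
    choose a ha using fun j : ℕ => exists_rat_near z.re (hδ j)
    choose b hb' using fun j : ℕ => exists_rat_near z.im (hδ j)
    choose c hc using fun j : ℕ => exists_rat_near z'.re (hδ j)
    choose d hd using fun j : ℕ => exists_rat_near z'.im (hδ j)
    have t1 := hRz (fun j => ((a j : ℝ), (b j : ℝ))) _ hδt (Eventually.of_forall fun j => by
      rw [Metric.mem_closedBall, Prod.dist_eq, one_mul, max_le_iff]
      exact ⟨(ha j).le, (hb' j).le⟩)
    have t2 := hRz' (fun j => ((c j : ℝ), (d j : ℝ))) _ hδt (Eventually.of_forall fun j => by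
      rw [Metric.mem_closedBall, Prod.dist_eq, one_mul, max_le_iff]
      exact ⟨(hc j).le, (hd j).le⟩)
    refine tendsto_nhds_unique (t1.congr' ?_) t2
    obtain ⟨r, hr, hrA⟩ := Metric.isOpen_iff.1 hAo z hz
    obtain ⟨r', hr', hrA'⟩ := Metric.isOpen_iff.1 hAo z' hz'
    have hev : ∀ᶠ j : ℕ in atTop, ((1 / ((j : ℚ) + 1) : ℚ) : ℝ) < min r r' / 4 := by
      have h0 : Tendsto (fun j : ℕ => ((1 / ((j : ℚ) + 1) : ℚ) : ℝ)) atTop (𝓝 0) :=
        tendsto_nhds_of_tendsto_nhdsWithin hδt
      exact h0.eventually_lt_const (by positivity)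
    have hsub : ∀ (y : ℂ) (s : ℝ) (p q : ℚ) (ε : ℝ), |y.re - p| < ε → |y.im - q| < ε →
        ε < s / 4 → sq ((p : ℂ) + q * Complex.I) ε ⊆ Metric.ball y s := by
      intro y s p q ε h1 h2 h3 w hw
      rw [mem_sq] at hw
      simp only [Complex.add_re, Complex.ratCast_re, Complex.mul_re, Complex.I_re, mul_zero,
        Complex.ratCast_im, Complex.I_im, mul_one, sub_self, add_zero, Complex.add_im,
        Complex.mul_im, zero_add] at hw
      rw [Metric.mem_ball, dist_eq_norm]
      have h4 := Complex.norm_le_abs_re_add_abs_im (w - y)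
      rw [Complex.sub_re, Complex.sub_im] at h4
      have h5 : |w.re - y.re| ≤ 2 * ε := by
        have := abs_sub_le w.re p y.re
        rw [abs_sub_comm (p : ℝ) y.re] at this
        linarith [hw.1]
      have h6 : |w.im - y.im| ≤ 2 * ε := by
        have := abs_sub_le w.im q y.im
        rw [abs_sub_comm (q : ℝ) y.im] at this
        linarith [hw.2]
      linarith
    filter_upwards [hev] with j hj
    have hs1 : sq ((a j : ℂ) + b j * Complex.I) ((1 / ((j : ℚ) + 1) : ℚ) : ℝ) ⊆ A :=
      (hsub z r (a j) (b j) _ (ha j) (hb' j) (hj.trans_le (by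
        gcongr; exact min_le_left _ _))).trans hrA
    have hs2 : sq ((c j : ℂ) + d j * Complex.I) ((1 / ((j : ℚ) + 1) : ℚ) : ℝ) ⊆ A :=
      (hsub z' r' (c j) (d j) _ (hc j) (hd j) (hj.trans_le (by
        gcongr; exact min_le_right _ _))).trans hrA'
    have hh := h (a j) (b j) (c j) (d j) (1 / ((j : ℚ) + 1)) (by positivity) (by
      intro l hl w hw
      rw [← mem_sq_iff] at hw
      have e1 := hs1 ((mem_sq_add ((a j : ℂ) + b j * Complex.I) _ _).2 hw)
      have e2 := hs2 ((mem_sq_add ((c j : ℂ) + d j * Complex.I) _ _).2 hw)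
      have e3 := hAc e1 e2 (sub_nonneg.2 hl.2) hl.1 (by ring)
      have e4 : w = (1 - l) • (((a j : ℂ) + b j * Complex.I) + (w - (((a j : ℂ) +
          b j * Complex.I) + l * (((c j : ℂ) + d j * Complex.I) - ((a j : ℂ) +
          b j * Complex.I))))) + l • (((c j : ℂ) + d j * Complex.I) + (w - (((a j : ℂ) +
          b j * Complex.I) + l * (((c j : ℂ) + d j * Complex.I) - ((a j : ℂ) +
          b j * Complex.I))))) := by
        simp only [Complex.real_smul]
        push_cast
        ring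
      rw [e4]
      exact e3)
    rw [setIntegral_sq_prod, setIntegral_sq_prod] at hh
    simp only [Complex.add_re, Complex.ratCast_re, Complex.mul_re, Complex.I_re, mul_zero,
      Complex.ratCast_im, Complex.I_im, mul_one, sub_self, add_zero, Complex.add_im,
      Complex.mul_im, zero_add] at hh
    rw [setAverage_eq, setAverage_eq]
    have hvol : ∀ p q : ℝ × ℝ, volume.real (Metric.closedBall p ((1 / ((j : ℚ) + 1) : ℚ) : ℝ)) =
        volume.real (Metric.closedBall q ((1 / ((j : ℚ) + 1) : ℚ) : ℝ)) := by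
      intro p q
      rw [measureReal_def, measureReal_def, Measure.addHaar_closedBall_center,
        Measure.addHaar_closedBall_center volume q]
    rw [hvol _ ((c j : ℝ), (d j : ℝ))]
    simp only [hV]
    rw [hh]
  -- a good point
  have hRae : ∀ᵐ p : ℝ × ℝ, R p := by
    filter_upwards [hae] with p hp
    exact fun {ι l} w δ h1 h2 => hp w δ h1 h2
  have hRz : ∀ᵐ z : ℂ, R (z.re, z.im) :=
    Complex.volume_preserving_equiv_real_prod.quasiMeasurePreserving.ae hRae
  obtain ⟨z₀, hz₀, hR₀⟩ : ∃ z₀ ∈ A, R (z₀.re, z₀.im) := by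
    obtain ⟨z, h1, h2⟩ := (Measure.dense_of_ae hRz).inter_open_nonempty A hAo (tri_interior S i)
    exact ⟨z, h1, h2⟩
  refine ⟨V (z₀.re, z₀.im), ?_⟩
  have h1 : ∀ᵐ p : ℝ × ℝ, ((p.1 : ℂ) + p.2 * Complex.I) ∈ A →
      u (p.1 - t * p.2) = V (z₀.re, z₀.im) := by
    filter_upwards [hRae] with p hp hpA
    have e : (((p.1 : ℂ) + p.2 * Complex.I).re, ((p.1 : ℂ) + p.2 * Complex.I).im) = p := by
      ext <;> simp
    have h2 := key _ _ hpA hz₀ (by rw [e]; exact hp) hR₀
    rw [← h2]
    simp [hV]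
  have h2 : ∀ᵐ y : ℝ, ∀ᵐ x : ℝ, ((x : ℂ) + y * Complex.I) ∈ A →
      u (x - t * y) = V (z₀.re, z₀.im) := by
    have h3 : ∀ᵐ p : ℝ × ℝ ∂((volume : Measure ℝ).prod volume),
        ((p.1 : ℂ) + p.2 * Complex.I) ∈ A → u (p.1 - t * p.2) = V (z₀.re, z₀.im) := h1
    exact Measure.ae_ae_of_ae_prod ((Measure.measurePreserving_swap
      (μ := (volume : Measure ℝ)) (ν := (volume : Measure ℝ))).quasiMeasurePreserving.ae h3)
  have h3 : ∀ᵐ y : ℝ, ∀ᵐ x : ℝ, (((x + t * y : ℝ) : ℂ) + y * Complex.I) ∈ A →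
      u x = V (z₀.re, z₀.im) := by
    filter_upwards [h2] with y hy
    have h4 := (measurePreserving_add_right (volume : Measure ℝ)
      (t * y)).quasiMeasurePreserving.ae hy
    filter_upwards [h4] with x hx hxA
    have := hx hxA
    rwa [add_sub_cancel_right] at this
  obtain ⟨Y, hY1, hY2, hY3⟩ := (Measure.dense_of_ae h3).exists_countable_dense_subset
  have h4 : ∀ᵐ x : ℝ, ∀ y ∈ Y, (((x + t * y : ℝ) : ℂ) + y * Complex.I) ∈ A →
      u x = V (z₀.re, z₀.im) := by
    rw [ae_ball_iff hY2]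
    intro y hy
    exact hY1 hy
  filter_upwards [h4] with x hx h5 h6
  obtain ⟨z, hzA, hzx⟩ := exists_interior_xi S t i h5 h6
  have hopen : IsOpen {y : ℝ | (((x + t * y : ℝ) : ℂ) + y * Complex.I) ∈ A} := by
    apply hAo.preimage
    fun_prop
  obtain ⟨y, h7, h8⟩ := hY3.inter_open_nonempty _ hopen ⟨z.im, by
    change (((x + t * z.im : ℝ) : ℂ) + z.im * Complex.I) ∈ A
    have : (((x + t * z.im : ℝ) : ℂ) + z.im * Complex.I) = z := by
      rw [← hzx]
      apply Complex.ext <;> simp [xi]
    rwa [this]⟩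
  exact hx y h8 h7

end Pool.Agent.H36.GD
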